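import Pool.Agent.Helper13.RG.Stmts

/-!
# EX1: existence of an element with the same values, if the polynomial splits
-/

set_option autoImplicit false

open scoped Classical

namespace Pool.Agent.Helper13.RG

open Pool.Agent.Helper14.BSC Pool.Agent.Helper13.ZL

section

variable {k Ω : Type} [Field k] [Field Ω] [Algebra k Ω]

/-- the constants in the valuation ring of a place -/
noncomputable def ex1Con {D : Sec k Ω} {p : ℕ} [Fact p.Prime] {σ : k →+* ℂ_[p]} (P : Place D p σ) :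
    k →+* P.C :=
  (algebraMap k (LL D)).codRestrict P.C.toSubring (fun c => (P.base c).1)

theorem ex1Con_val {D : Sec k Ω} {p : ℕ} [Fact p.Prime] {σ : k →+* ℂ_[p]} (P : Place D p σ) (c : k) :
    ((ex1Con P c : P.C) : LL D) = algebraMap k (LL D) c := rfl

theorem ex1Con_phi {D : Sec k Ω} {p : ℕ} [Fact p.Prime] {σ : k →+* ℂ_[p]} (P : Place D p σ) (c : k) :
    P.φ (ex1Con P c) = σ c := by
  obtain ⟨h, h2⟩ := P.base c
  rw [← h2]
  rfl

/-- polynomials in an element of the valuation ring -/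
noncomputable def ex1H {D : Sec k Ω} {p : ℕ} [Fact p.Prime] {σ : k →+* ℂ_[p]} (P : Place D p σ)
    (f0 : P.C) : Polynomial k →+* P.C :=
  Polynomial.eval₂RingHom (ex1Con P) f0

theorem ex1H_sub {D : Sec k Ω} {p : ℕ} [Fact p.Prime] {σ : k →+* ℂ_[p]} (P : Place D p σ)
    (f0 : P.C) :
    P.C.subtype.comp (ex1H P f0) = (Polynomial.aeval (f0 : LL D)).toRingHom := by
  refine Polynomial.ringHom_ext (fun c => ?_) ?_
  · simp [ex1H, ex1Con_val]
  · simp [ex1H]

theorem ex1H_phi {D : Sec k Ω} {p : ℕ} [Fact p.Prime] {σ : k →+* ℂ_[p]} (P : Place D p σ)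
    (f0 : P.C) :
    P.φ.comp (ex1H P f0) = Polynomial.eval₂RingHom σ (P.φ f0) := by
  refine Polynomial.ringHom_ext (fun c => ?_) ?_
  · simp [ex1H, ex1Con_phi]
  · simp [ex1H]

/-- the relation at a place of `D` -/
theorem ex1_relA {D : Sec k Ω} {p : ℕ} [Fact p.Prime] {σ : k →+* ℂ_[p]} (P : Place D p σ)
    (f0 x0 : P.C) (G : Polynomial (Polynomial k))
    (h : Polynomial.eval₂ (Polynomial.aeval (f0 : LL D)).toRingHom (x0 : LL D) G = 0) :
    Polynomial.eval₂ (Polynomial.eval₂RingHom σ (P.φ f0)) (P.φ x0) G = 0 := by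
  have h1 : P.C.subtype (Polynomial.eval₂ (ex1H P f0) x0 G) = 0 := by
    rw [Polynomial.hom_eval₂, ex1H_sub]
    exact h
  have h2 : Polynomial.eval₂ (ex1H P f0) x0 G = 0 := by
    apply Subtype.ext
    exact h1
  rw [← ex1H_phi, ← Polynomial.hom_eval₂, h2, map_zero]

/-- the factorization at a place of `D'` -/
theorem ex1_relB {D : Sec k Ω} {p : ℕ} [Fact p.Prime] {σ : k →+* ℂ_[p]} (P : Place D p σ)
    (f0 a0 : P.C) (Z0 : Multiset P.C) (G : Polynomial (Polynomial k))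
    (h : G.map (Polynomial.aeval (f0 : LL D)).toRingHom =
        Polynomial.C (a0 : LL D) *
          ((Z0.map (Subtype.val : P.C → LL D)).map (fun z => Polynomial.X - Polynomial.C z)).prod) (w : ℂ_[p]) :
    Polynomial.eval₂ (Polynomial.eval₂RingHom σ (P.φ f0)) w G =
      P.φ a0 * (Z0.map (fun z => w - P.φ z)).prod := by
  have h1 : G.map (ex1H P f0) = Polynomial.C a0 *
      (Z0.map (fun z => Polynomial.X - Polynomial.C z)).prod := by
    have hinj : Function.Injective (Polynomial.map P.C.subtype) :=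
      Polynomial.map_injective _ Subtype.val_injective
    apply hinj
    rw [Polynomial.map_map, ex1H_sub, h, Polynomial.map_mul, Polynomial.map_C,
      Polynomial.map_multiset_prod, Multiset.map_map, Multiset.map_map]
    simp only [Function.comp_def, Polynomial.map_sub, Polynomial.map_X, Polynomial.map_C]
    rfl
  have h2 := congrArg (Polynomial.eval₂ P.φ w) h1
  rw [Polynomial.eval₂_map, ex1H_phi] at h2
  rw [h2, Polynomial.eval₂_mul, Polynomial.eval₂_C, Polynomial.eval₂_multiset_prod, Multiset.map_map]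
  simp only [Function.comp_def, Polynomial.eval₂_sub, Polynomial.eval₂_X, Polynomial.eval₂_C]

end

theorem ex1_null {k : Type} [Field k] [NumberField k] (hDL : ST_DLIB) {α : Type} (F : α → Set (Pl k))
    (Z : Multiset α) (h : ∀ z ∈ Z, Null (F z)) : Null {v : Pl k | ∃ z ∈ Z, v ∈ F z} := by
  obtain ⟨hsub, hun, hfin, -⟩ := hDL k
  induction Z using Multiset.induction_on with
  | empty =>
    refine hsub ∅ _ ?_ (hfin ∅ Set.finite_empty)
    rintro v ⟨z, hz, -⟩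
    exact absurd hz (Multiset.notMem_zero z)
  | cons a Z ih =>
    refine hsub (F a ∪ {v : Pl k | ∃ z ∈ Z, v ∈ F z}) _ ?_
      (hun _ _ (h a (Multiset.mem_cons_self a Z)) (ih (fun z hz => h z (Multiset.mem_cons_of_mem hz))))
    rintro v ⟨z, hz, hv⟩
    rcases Multiset.mem_cons.1 hz with rfl | hz
    · exact Or.inl hv
    · exact Or.inr ⟨z, hz, hv⟩

theorem st_EX1 (hNUL : ST_NUL) (hEQA : ST_EQA) (hEQB : ST_EQB) (hVEMB : ST_VEMB) (hPEX : ST_PEX)
    (hDL : ST_DLIB) : ST_EX1 := by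
  intro k Ω _ _ _ _ _ D D' hD hD' f x f' hff' hx G hG Z a ha hfac
  obtain ⟨hN1, hN2, hN3, -⟩ := hNUL k Ω D hD
  obtain ⟨hM1, hM2, hM3, -⟩ := hNUL k Ω D' hD'
  obtain ⟨hsub, hun, hfin, huniv⟩ := hDL k
  have hmain : ∃ z ∈ Z, ¬ Null (CV D D' x z) := by
    by_contra hcon
    push Not at hcon
    apply huniv
    have hA := ex1_null hDL (fun z => CV D D' x z) Z hcon
    have hB := ex1_null hDL (fun z => INF D' z) Z (fun z _ => hM2 z)
    refine hsub (((INF D f ∪ INF D x) ∪ (INF D' f' ∪ INF D' a)) ∪ (ZVL D' a ∪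
      ({v : Pl k | ∃ z ∈ Z, v ∈ INF D' z} ∪ {v : Pl k | ∃ z ∈ Z, v ∈ CV D D' x z}))) _ ?_
      (hun _ _ (hun _ _ (hun _ _ (hN2 f) (hN2 x)) (hun _ _ (hM2 f') (hM2 a)))
        (hun _ _ (hM3 a ha) (hun _ _ hB hA)))
    intro v _
    by_contra hv
    simp only [Set.mem_union, not_or, Set.mem_setOf_eq, not_exists, not_and] at hv
    obtain ⟨⟨⟨h1, h2⟩, h3, h4⟩, h5, h6, h7⟩ := hv
    obtain ⟨p, hp, σ, E₀, hov, -, -⟩ := hVEMB k v
    obtain ⟨P⟩ := hPEX k Ω D p σ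
    obtain ⟨P'⟩ := hPEX k Ω D' p σ
    have hfP : f ∈ P.C := by
      by_contra hc
      exact h1 ⟨p, hp, σ, P, hov, hc⟩
    have hxP : x ∈ P.C := by
      by_contra hc
      exact h2 ⟨p, hp, σ, P, hov, hc⟩
    have hfP' : f' ∈ P'.C := by
      by_contra hc
      exact h3 ⟨p, hp, σ, P', hov, hc⟩
    have haP' : a ∈ P'.C := by
      by_contra hc
      exact h4 ⟨p, hp, σ, P', hov, hc⟩
    have ha0 : P'.φ ⟨a, haP'⟩ ≠ 0 := by
      intro hc
      exact h5 ⟨p, hp, σ, P', haP', hov, hc⟩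
    have hzP' : ∀ z ∈ Z, z ∈ P'.C := by
      intro z hz
      by_contra hc
      exact h6 z hz ⟨p, hp, σ, P', hov, hc⟩
    obtain ⟨Z0, hZ0⟩ : ∃ Z0 : Multiset P'.C, Z0.map (Subtype.val : P'.C → LL D') = Z := by
      refine ⟨Z.pmap (fun z hz => (⟨z, hz⟩ : P'.C)) hzP', ?_⟩
      rw [Multiset.map_pmap]
      exact (Multiset.pmap_eq_map _ (fun z => z) Z hzP').trans (Multiset.map_id' Z)
    have hsame : P.φ ⟨f, hfP⟩ = P'.φ ⟨f', hfP'⟩ := (hff' p σ P P').2 hfP hfP'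
    have hr1 := ex1_relA P ⟨f, hfP⟩ ⟨x, hxP⟩ G hG
    rw [← hZ0] at hfac
    have hr2 := ex1_relB P' ⟨f', hfP'⟩ ⟨a, haP'⟩ Z0 G hfac (P.φ ⟨x, hxP⟩)
    rw [← hsame, hr1] at hr2
    have hr3 := (mul_eq_zero.1 hr2.symm).resolve_left ha0
    obtain ⟨z0, hz0, hz1⟩ := Multiset.mem_map.1 (Multiset.prod_eq_zero_iff.1 hr3)
    have hzZ : (z0 : LL D') ∈ Z := by
      rw [← hZ0]
      exact Multiset.mem_map.2 ⟨z0, hz0, rfl⟩
    refine h7 (z0 : LL D') hzZ ⟨p, hp, σ, P, P', hxP, z0.2, hov, ?_⟩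
    rw [show (⟨(z0 : LL D'), z0.2⟩ : P'.C) = z0 from rfl, hz1, norm_zero]
    exact one_pos
  obtain ⟨z, hz, hcv⟩ := hmain
  refine ⟨z, hEQB k Ω D D' x z (hEQA k Ω D D' hD hD' x z hx ?_ hcv)⟩
  intro c hc
  apply hcv
  refine hsub (SetZ D (x - algebraMap k (LL D) c)) _ ?_ (hN1 _ ?_)
  · rintro v ⟨p, hp, σ, P, P', hxP, hzP', hov, hlt⟩
    obtain ⟨hcP, hcφ⟩ := P.base c
    obtain ⟨hcP', hcφ'⟩ := P'.base c
    refine ⟨p, hp, σ, P, P.C.toSubring.sub_mem hxP hcP, hov, ?_⟩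
    have e1 : P.φ ⟨x - algebraMap k (LL D) c, P.C.toSubring.sub_mem hxP hcP⟩ =
        P.φ ⟨x, hxP⟩ - P.φ ⟨algebraMap k (LL D) c, hcP⟩ := by
      rw [← map_sub]
      rfl
    have e2 : P'.φ ⟨z, hzP'⟩ = σ c := by
      rw [← hcφ']
      congr 1
      exact Subtype.ext hc
    rw [e1, hcφ, ← e2]
    exact hlt
  · intro d hd
    refine hx (d + c) ?_
    rw [map_add, ← hd]
    ring

end Pool.Agent.Helper13.RG
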